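import Pool.Agent.H78.PSQ2.Pec
import Pool.Agent.H31.W.H3.D2G.RecN
import Pool.Agent.H31.W.H42.D2.Nqa
import Pool.Agent.H3.W.Bas
import Pool.Agent.H57.SWC.Lx

/-!
# The data of a jointly nonfull pair of any radius from its rows

`paire_core`: the data `PairE` of the family of pairs `PsQ Ψ₀` of a chain with a natural last label over
any family `Ψ₀`, from the rows: the radius `R q` is free, the last natural window is `ta ≤ t`.
-/

set_option autoImplicit false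

namespace Pool.W.PSQ78

open Pool.PSQ78

open Finset Real MvPolynomial
open Pool.Agent.H49.Ent Pool.Agent.H32.Dense Pool.STK Pool.KA Pool.KSAT Pool.K2S Pool.PB Pool.GEN
open Pool.S6C Pool.RCD Pool.LA91 Pool.OWN68 Pool.AJW Pool.AJX Pool.CHT Pool.PKG Pool.ALT Pool.PN18
open Pool.V0F (LbU)
open Pool.CR99 (PairE)

/-- **The data of a jointly nonfull pair of any radius from its rows**: any family `Ψ₀` of the base labels
of the last coordinate, the last natural window is `ta`. -/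
theorem paire_core {r D K : ℕ} (hr : 1 ≤ r) {S : Pool.PB.PCl (r + 2)} {al : ℝ} {g₀ : ℝ → ℝ}
    {P : List (Fin (r + 2)) × Fin (r + 2) → ℝ → ℝ → ℝ}
    {θ : ℝ} {P₂ : ℕ → List (Fin (r + 2)) × Fin (r + 2) → ℝ → ℝ → ℝ} {θ₂ Eb e₂ : ℕ → ℝ}
    {c : ℕ → Fin (r + 2)} {Pt : ℝ → ℝ → ℝ} {rt : ℝ → ℝ} {h K₀ g : ℝ} {L T : ℕ → ℝ → ℝ → ℝ}
    {Sl : ℕ → ℝ} {κ : ℕ → Pool.PKG.Kg} {G : Set ℝ} {S₀ N : ℕ} {A V : ℕ → ℝ} {S₂ N' : ℕ} {V' : ℕ → ℝ}
    {K' ε q t : ℝ}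
    (R : Pool.W.PKG.RecG S al g₀ P θ P₂ θ₂ Eb e₂ c Pt rt h K₀ g L T Sl κ G S₀ N A V S₂ N' V' K' ε q t)
    (hκ : ∀ l < r, κ l = .one) {a b ρ τ ta : ℝ} (hρ0 : 0 < ρ) (hb : 0 < b) (hτ0 : 0 < τ)
    (hta1 : t + -τ * q ≤ ta) (hta2 : ta ≤ t)
    (hcu : ∀ w ∈ G, ∃ rd : ℕ → ℝ, (∀ l < r + 1, 0 ≤ rd l) ∧
      Pool.LA91.Chn S c 0 (r + 1) w w (Pool.SWC.Lx L r w) (fun l => L l w w) rd)
    -- the base labels of the last coordinate
    {Ψ₀ : Pool.ALT.Fml (r + 2)} {vn En Rn Pn Pn' : ℝ}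
    (hΨs : ∀ (J : ℕ) (F : Pool.KA.Fam (r + 2) J) (A B : F.Ω → Prop) (V : Type)
      (z : Pool.GEN.PtT F → V) (z' : Pool.GEN.LnT F → V) (G : V → MvPolynomial (Option (Fin (r + 2))) ℝ), Pool.K2S.Sub B A →
      Ψ₀ J F A V z z' G → Ψ₀ J F B V z z' G)
    (hΨl : ∀ (J : ℕ) (F : Pool.KA.Fam (r + 2) J) (A : F.Ω → Prop) (V : Type) (z : Pool.GEN.PtT F → V)
      (z' : Pool.GEN.LnT F → V) (G : V → MvPolynomial (Option (Fin (r + 2))) ℝ), Ψ₀ J F A V z z' G →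
      Pool.GEN.LbOK F ((range (r + 1)).image c) (c (r + 1)) D ⌊En * J⌋₊ J ⌊vn * J⌋₊ ⌊Rn * J⌋₊
        ⌊Pn' * J⌋₊ A z z' G)
    -- the natural labels
    {p₁ p₂ pa₁ pa₂ eN uN pN ea ua pa e : ℝ} {E rd : ℕ → ℝ}
    (hNz : Pool.S6C.Bas S (fun J F A => ∃ (V : Type) (z : Pool.GEN.PtT F → V) (z' : Pool.GEN.LnT F → V)
        (G : V → MvPolynomial (Option (Fin (r + 2))) ℝ),
        Pool.ALT.NzQ Ψ₀ c r (c (r + 1)) D D D D vn (t + -τ * q) p₁ p₂ eN uN pN ta pa₁ pa₂ ea ua pa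
          J F A V z z' G))
    (hLx : Pool.S6C.Bas S (fun J F A => ∃ (V₁ : Type) (z : Pool.GEN.PtT F → V₁)
      (z' : Pool.GEN.LnT F → V₁) (g : V₁ → ℕ → MvPolynomial (Option (Fin (r + 2))) ℝ),
      Pool.AJX.LbX F c 0 (r + 1) K e E (t + -τ * q) rd
        (fun l => L l (t + -τ * q) (t + -τ * q)) A z z' g))
    (hK : max D D * max 1 D ≤ K) (hE : eN ≤ E (r + 1) + e) (hR : uN ≤ rd (r + 1) + e)
    (hp : L (r + 1) (t + -τ * q) (t + -τ * q) - e ≤ pN)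
    (hpa : L (r + 1) (t + -τ * q) (t + -τ * q) + b * (ρ * q) ≤ pa) (hE1 : ∀ i < r, E i ≤ 1)
    (hrd0 : ∀ i < r, 0 ≤ rd i) (hPn : Pn - e ≤ Pn') (hPn1 : L (r + 1) vn vn - q ≤ Pn)
    -- the windows
    (hvn0 : 0 ≤ vn) (hvn : vn + Pool.PKG.pzD ρ b * q ≤ t + -τ * q) (hpzD : 0 ≤ Pool.PKG.pzD ρ b) (htG : t ∈ G)
    {X φ kf ℓ : ℝ} (hXj : ∀ k ≤ r, t + Pool.AJW.jfV r (-τ) X k * q ∈ G)
    -- the numbers
    (hX1 : 2 * (6 * τ) ≤ X) (hX3 : 32 * (r + 1) * φ ≤ X)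
    (hkf1 : 3 ^ r * X ≤ kf) (hkf2 : b * ρ + 2 * (r + 1) * φ + 1 ≤ kf) (hℓ1 : kf + τ ≤ ℓ)
    (hK1 : ℓ + 1 ≤ K') (hK2 : τ + 3 ^ r * X ≤ K') (hK4 : τ + 2 ≤ K')
    (hφ0 : 0 < φ) (hφ1 : φ ≤ 1 / 8) (hεφ : 2 * ε ≤ φ) (he : 0 < e) (heφ : e ≤ φ * q / 8)
    (he64 : e ≤ q / 64) {pf : ℕ → ℝ} {Nf : ℕ → ℕ → ℝ}
    (hpf : ∀ l < r, L l t t - φ * q ≤ pf l)
    (hNf : ∀ l < r, ∀ j ≤ 1, Nf l j = L l t t + kf * q - (j : ℕ) * t) {δ h' : ℝ} (hδ0 : 0 < δ)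
    {N₀ : ℕ}
    (rw₁ : Pool.PN18.Rw2 S (Pool.PN18.PsQ Ψ₀ c r D K vn (t + -τ * q) ta p₁ p₂ eN uN pN pa₁ pa₂ ea ua pa (ℓ * q) e E rd
        (fun i => L i (t + -τ * q) (t + -τ * q))
        (Pool.AJW.nX r (fun l x => L l x x) (t + -τ * q) (X * q))) (c r) (c (r + 1)) (t + -τ * q)
      (L r (t + -τ * q) (t + -τ * q)) (L (r + 1) (t + -τ * q) (t + -τ * q)) a b (ρ * q) h'
      (δ * (ρ * q)) N₀)
    (rw₂ : Pool.PN18.Rw2 S (Pool.PN18.Fm2.swap (Pool.PN18.PsQ Ψ₀ c r D K vn (t + -τ * q) ta p₁ p₂ eN uN pN pa₁ pa₂ ea ua pa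
        (ℓ * q) e E rd (fun i => L i (t + -τ * q) (t + -τ * q))
        (Pool.AJW.nX r (fun l x => L l x x) (t + -τ * q) (X * q)))) (c (r + 1)) (c r) (t + -τ * q)
      (L (r + 1) (t + -τ * q) (t + -τ * q)) (L r (t + -τ * q) (t + -τ * q)) b a (ρ * q) h'
      (δ * (ρ * q)) N₀) :
    Pool.CR99.PairE S (Pool.PN18.PsQ Ψ₀ c r D K vn (t + -τ * q) ta p₁ p₂ eN uN pN pa₁ pa₂ ea ua pa (ℓ * q) e E rd
        (fun i => L i (t + -τ * q) (t + -τ * q))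
        (Pool.AJW.nX r (fun l x => L l x x) (t + -τ * q) (X * q))) c r K
      ((range (r + 1)).image c) (c (r + 1)) a b ρ h' δ (ℓ * q) N₀ (t + -τ * q) t q
      (fun i => L i (t + -τ * q) (t + -τ * q))
      (Pool.AJW.nX r (fun l x => L l x x) (t + -τ * q) (X * q)) (fun x => L (r + 1) x x) pf Nf e
      (E (r + 1) + e) (rd (r + 1) + e) (L (r + 1) (t + -τ * q) (t + -τ * q)) E rd
      vn Pn En Rn (D * max 1 D) := by
  have hq := R.q0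
  have ht0 := R.t0
  have ht1 := R.t1
  have htm := R.tmc
  have hpos := R.pos
  have hr0 : (0 : ℝ) ≤ r := Nat.cast_nonneg r
  have h3X : X ≤ 3 ^ r * X := by
    have h1 : (1 : ℝ) ≤ 3 ^ r := one_le_pow₀ (by norm_num)
    exact le_mul_of_one_le_left (by linarith only [hX1, hτ0]) h1
  have habm : 0 < b * ρ := mul_pos hb hρ0
  have hX0 : 0 < X := by linarith only [hX1, hτ0]
  have hφq : 0 < φ * q := mul_pos hφ0 hq
  have hK0 : 0 < K' := by linarith only [hK4, hτ0]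
  have hKq : 0 < K' * q := mul_pos hK0 hq
  have hτq : 0 < τ * q := mul_pos hτ0 hq
  have haq : 0 < ρ * q := mul_pos hρ0 hq
  obtain ⟨v, hv⟩ : ∃ v, v = t + -τ * q := ⟨_, rfl⟩
  have hv' : v = t - τ * q := by rw [hv]; ring
  have hctx := R.fwx htm hκ (by omega) (Pool.LA91.ChG.mk fun w hw => by
      obtain ⟨rd, h1, h2⟩ := hcu w hw
      exact ⟨_, rd, h1, h2⟩) (K := 0) (vv := -τ) (X := X) (φ := φ) (lam := ℓ)
    (kf := kf) ⟨by linarith only [hτ0], hφ0, by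
      push_cast
      linarith only [hX1], hX3, hkf1, by linarith only [hℓ1]⟩ htG hXj (by
      linarith only [hK2]) (by linarith only [hK1]) hεφ hpf
    (E := E) (rd := rd) hE1 hrd0 (Kc := K) (mul_pos hδ0 haq) he heφ hNf
  rw [← hv] at hctx hNz hLx hvn hp hpa hta1 rw₁ rw₂ ⊢
  have hK1q : (ℓ + 1) * q ≤ K' * q := mul_le_mul_of_nonneg_right hK1 hq.le
  have hK4q : (τ + 2) * q ≤ K' * q := mul_le_mul_of_nonneg_right hK4 hq.le
  have habq : 0 < b * ρ * q := mul_pos habm hq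
  have hvt : v ≤ t := by linarith only [hv', hτq]
  have hv0 : 0 ≤ v := by linarith only [hv', ht0, hK4q, hq]
  have hvq : q ≤ v := by linarith only [hv', ht0, hK4q, hq]
  have ht1' : t ≤ 1 := by linarith only [ht1, hKq]
  have hv1 : v ≤ 1 := hvt.trans ht1'
  have hNlow : v ≤ L (r + 1) v v := R.low_at (by omega) hv0 le_rfl hv1
  have hvnv : vn ≤ v := by
    have := mul_nonneg hpzD hq.le
    linarith only [hvn, this]
  have hℓ1q : (kf + τ) * q ≤ ℓ * q := mul_le_mul_of_nonneg_right hℓ1 hq.le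
  have hkf2q : (b * ρ + 2 * (r + 1) * φ + 1) * q ≤ kf * q :=
    mul_le_mul_of_nonneg_right hkf2 hq.le
  have hφqq : φ * q ≤ 1 / 8 * q := mul_le_mul_of_nonneg_right hφ1 hq.le
  have hδ' : 0 < δ * (ρ * q) := mul_pos hδ0 haq
  obtain ⟨rdt, hrt1, hrt2⟩ := hcu t htG
  refine ⟨Pool.PN18.psq_psl hΨs, Pool.PN18.psq_ex hLx hNz hK hE hR hp, Pool.PSQ78.psq_ctx2 (by omega) hvt ht1' hctx, rw₁, rw₂,
    ?_, Pool.PN18.psq_dcp hΨl hPn hvnv hv1, hvn0, hvn, ?_, ?_, hPn1⟩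
  · -- the value
    refine Pool.PSQ78.psq_valN2 htm hpos (fun J F A V z z' G h => ⟨(hΨl J F A V z z' G h).deg,
      (hΨl J F A V z z' G h).dep, (hΨl J F A V z z' G h).cls⟩) hvnv hta1 hta2 ht1' hr
      (s := L (r + 1) v v + b * (ρ * q)) hpa (u₁ := Pool.SWC.Lx L r t) (σ := φ * q) (k := kf * q)
      (pm := L (r + 1) v v - e) (so := fun l => L l t t) (rdc := rdt)
      (hrt2.take (by omega) (by omega)) hφq ?_ ?_ hpf (fun i hi => ?_) hp ?_ ?_ ?_ heφ hδ'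
    · have e1 : 2 * ((r : ℝ) + 1) * (φ * q) = 2 * (r + 1) * φ * q := by ring
      rw [e1]
      linarith only [hkf2q, habq, hq]
    · linarith only [ht1, hℓ1q, hK1q, hτq, hq]
    · rw [hNf i hi 0 (by norm_num)]
      push_cast
      linarith only []
    · have := mul_pos hb haq
      linarith only [hpa, this, he]
    · linarith only [hNlow, hvq, he64, hφqq, hq]
    · have e1 : 2 * ((r : ℝ) + 1) * (φ * q) = 2 * (r + 1) * φ * q := by ring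
      have e2 : b * (ρ * q) = b * ρ * q := by ring
      rw [e1, e2]
      linarith only [hkf2q, he64, hq]
  · show L (r + 1) v v ≤ L (r + 1) v v + q
    linarith only [hq]
  · show L (r + 1) v v - q ≤ L (r + 1) v v
    linarith only [hq]

end Pool.W.PSQ78
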